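import Mathlib
import Pool.Agent.Helper75.UF.Defs
import Pool.Agent.Helper75.UF.P_residual_le_ker
import Pool.Agent.Helper75.UF.P_residual_eq_bot
import Pool.Agent.Helper75.UF.P_map_residual
import Pool.Agent.Helper75.UF.P_times_mem
import Pool.Agent.Helper75.UF.P_coind

set_option autoImplicit false
set_option linter.style.haveILetI false

/-! Residuals of arbitrary (not necessarily hereditary) formations: every finite simple group is a
quotient of an `H`-residual `K^H` by an epimorphism that does not kill `[K, K^H]`. -/

namespace Pool.Agent.H347.RC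

open Pool.Agent.Helper75.UF

/-- right translation action on functions -/
def wrAct (S Y : Type) [Group S] [Group Y] : Y →* MulAut (Y → S) where
  toFun p :=
    { toFun := fun g x => g (x * p)
      invFun := fun g x => g (x * p⁻¹)
      left_inv := fun g => by funext x; simp
      right_inv := fun g => by funext x; simp
      map_mul' := fun _ _ => rfl }
  map_one' := by
    ext g x
    show g (x * 1) = g x
    rw [mul_one]
  map_mul' := fun a b => by
    ext g x
    show g (x * (a * b)) = g (x * a * b)
    rw [mul_assoc]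

/-- the regular wreath product `S ≀ Y` -/
abbrev Wr (S Y : Type) [Group S] [Group Y] : Type := SemidirectProduct (Y → S) Y (wrAct S Y)

instance (S Y : Type) [Group S] [Group Y] [Finite S] [Finite Y] : Finite (Wr S Y) :=
  Finite.of_equiv _ SemidirectProduct.equivProd.symm

theorem wr_left_mul {S Y : Type} [Group S] [Group Y] (z w : Wr S Y) (x : Y) :
    (z * w).left x = z.left x * w.left (x * z.right) := rfl

theorem wr_right_mul {S Y : Type} [Group S] [Group Y] (z w : Wr S Y) :
    (z * w).right = z.right * w.right := rfl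

/-- Non-central type: `S` is the image of an `H`-residual `K^H` under an epimorphism that does not
kill `[K, K^H]`. -/
def NC (H : GroupClass) (S : Type) [Group S] : Prop :=
  ∃ (K : Type) (_ : Group K) (_ : Finite K) (χ : residual H K →* S), Function.Surjective χ ∧
    ∃ (k : K) (y : residual H K) (h : k * y * k⁻¹ * (y : K)⁻¹ ∈ residual H K), χ ⟨_, h⟩ ≠ 1

theorem comm_mem {H : GroupClass} {K : Type} [Group K] (k : K) (y : residual H K) :
    k * y * k⁻¹ * (y : K)⁻¹ ∈ residual H K :=
  (residual H K).mul_mem ((residual_normal H K).conj_mem _ y.2 _) ((residual H K).inv_mem y.2)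

/-- conjugate of an element of `Wr` by a translation -/
theorem conj_left {S Y : Type} [Group S] [Group Y] (v : Wr S Y) (hv : v.right = 1) (a x : Y) :
    ((SemidirectProduct.inr a : Wr S Y) * v * (SemidirectProduct.inr a : Wr S Y)⁻¹).left x =
      v.left (x * a) := by
  rw [← map_inv, wr_left_mul, wr_left_mul]
  simp [hv]

theorem const_of_not_nc {H : GroupClass} (hH : IsFormation H) {S : Type} [Group S] [Finite S]
    (hS : IsSimpleGroup S) (hcomm : ∀ a b : S, a * b = b * a) (hN : ¬ NC H S) {Y : Type} [Group Y]
    (hY : H Y) (v : Wr S Y) (hv : v ∈ residual H (Wr S Y)) :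
    v.right = 1 ∧ ∀ x, v.left x = v.left 1 := by
  haveI : Finite Y := hH.finite Y hY
  have hker : residual H (Wr S Y) ≤ (SemidirectProduct.rightHom : Wr S Y →* Y).ker :=
    (residual_le_ker hH _ SemidirectProduct.rightHom_surjective).2 hY
  have hr : ∀ w : residual H (Wr S Y), w.1.right = 1 := fun w => MonoidHom.mem_ker.1 (hker w.2)
  refine ⟨hr ⟨v, hv⟩, ?_⟩
  by_contra hcon
  push Not at hcon
  obtain ⟨x, hx⟩ := hcon
  apply hN
  let χ : residual H (Wr S Y) →* S :=
    { toFun := fun w => w.1.left 1
      map_one' := rfl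
      map_mul' := fun w w' => by
        show w.1.left 1 * w'.1.left (1 * w.1.right) = _
        rw [hr w, mul_one] }
  have hχ : Function.Surjective χ := by
    have hn : χ.range.Normal := ⟨by
      intro n hn g
      rw [hcomm g n, mul_inv_cancel_right]
      exact hn⟩
    rcases hS.eq_bot_or_eq_top_of_normal χ.range hn with h | h
    · exfalso
      have h1 : ∀ w : residual H (Wr S Y), χ w = 1 := fun w => by
        have : χ w ∈ χ.range := ⟨w, rfl⟩
        rw [h, Subgroup.mem_bot] at this
        exact this
      have h2 : v.left 1 = 1 := h1 ⟨v, hv⟩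
      have h3 : v.left x = 1 := by
        have h4 : (SemidirectProduct.inr x : Wr S Y) * v * (SemidirectProduct.inr x : Wr S Y)⁻¹ ∈
            residual H (Wr S Y) := (residual_normal H _).conj_mem _ hv _
        have h5 := h1 ⟨_, h4⟩
        have h6 := conj_left v (hr ⟨v, hv⟩) x 1
        rw [one_mul] at h6
        rw [← h6]
        exact h5
      exact hx (h3.trans h2.symm)
    · exact MonoidHom.range_eq_top.1 h
  refine ⟨Wr S Y, inferInstance, inferInstance, χ, hχ, SemidirectProduct.inr x, ⟨v, hv⟩,
    comm_mem _ _, ?_⟩
  show ((SemidirectProduct.inr x : Wr S Y) * v * (SemidirectProduct.inr x : Wr S Y)⁻¹ *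
    v⁻¹).left 1 ≠ 1
  intro h0
  apply hx
  have h7 := conj_left v (hr ⟨v, hv⟩) x 1
  rw [one_mul] at h7
  have hvr : v.right = 1 := hr ⟨v, hv⟩
  rw [wr_left_mul, h7] at h0
  have h8 : ((SemidirectProduct.inr x : Wr S Y) * v * (SemidirectProduct.inr x : Wr S Y)⁻¹).right
      = 1 := by
    rw [wr_right_mul, wr_right_mul, hvr]
    simp
  rw [h8, mul_one] at h0
  have h9 : (v⁻¹).left 1 = (v.left 1)⁻¹ := by
    rw [SemidirectProduct.inv_left, hvr, inv_one, map_one]
    rfl
  rw [h9] at h0
  exact mul_inv_eq_one.1 h0

end Pool.Agent.H347.RC
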