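import Mathlib
import Pool.Agent.H347.RC.NC

set_option autoImplicit false
set_option linter.style.haveILetI false

/-! Every finite simple group is a quotient of non-central type of a residual. -/

namespace Pool.Agent.H347.RC

open Pool.Agent.Helper75.UF

/-- the Bryant-Bryce-Hartley step: if `S ≀ Y` is in `H` for all `Y` in `H`, then a central type
epimorphism `K^H → S` does not exist. -/
theorem bbh {H : GroupClass} (hH : IsFormation H) {S : Type} [Group S] [Finite S] [Nontrivial S]
    (hcomm : ∀ a b : S, a * b = b * a) (hall : ∀ (Y : Type) [Group Y], H Y → H (Wr S Y))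
    {K : Type} [Group K] [Finite K] (χ : residual H K →* S) (hχ : Function.Surjective χ)
    (hcen : ∀ (k : K) (y : residual H K), χ ⟨_, comm_mem k y⟩ = 1) : False := by
  let Y : Type := K ⧸ residual H K
  have hY : H Y := quot_residual hH K
  haveI : Finite Y := hH.finite Y hY
  let φ : K →* Y := QuotientGroup.mk' (residual H K)
  let c : K → Y → S := fun k x => χ (coindK (residual H K) k x)
  have hc : ∀ (k l : K) (x : Y), c (k * l) x = c k x * c l (x * φ k) := by
    intro k l x
    show χ (coindK (residual H K) (k * l) x) = _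
    rw [coindK_mul, map_mul]
    rfl
  let X : Type := SemidirectProduct (Y → S) K ((wrAct S Y).comp φ)
  haveI : Finite X := Finite.of_equiv _ SemidirectProduct.equivProd.symm
  let f1 : X →* Wr S Y :=
    { toFun := fun z => ⟨z.left, φ z.right⟩
      map_one' := by
        apply SemidirectProduct.ext
        · rfl
        · exact map_one φ
      map_mul' := fun z w => by
        apply SemidirectProduct.ext
        · rfl
        · exact map_mul φ _ _ }
  let f2 : X →* Wr S Y :=
    { toFun := fun z => ⟨fun x => z.left x * (c z.right x)⁻¹, φ z.right⟩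
      map_one' := by
        apply SemidirectProduct.ext
        · funext x
          show (1 : S) * (χ (coindK (residual H K) 1 x))⁻¹ = 1
          rw [coindK_one, map_one, one_mul, inv_one]
        · exact map_one φ
      map_mul' := fun z w => by
        apply SemidirectProduct.ext
        · funext x
          show z.left x * w.left (x * φ z.right) * (c (z.right * w.right) x)⁻¹ =
            z.left x * (c z.right x)⁻¹ *
              (w.left (x * φ z.right) * (c w.right (x * φ z.right))⁻¹)
          rw [hc, mul_inv_rev]
          generalize z.left x = a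
          generalize w.left (x * φ z.right) = b
          generalize c z.right x = d
          generalize c w.right (x * φ z.right) = e
          rw [hcomm e⁻¹ d⁻¹, mul_assoc, mul_assoc a, ← mul_assoc b, hcomm b d⁻¹, mul_assoc]
        · exact map_mul φ _ _ }
  have hs1 : Function.Surjective f1 := by
    intro w
    obtain ⟨k, hk⟩ := QuotientGroup.mk'_surjective (residual H K) w.right
    refine ⟨⟨w.left, k⟩, ?_⟩
    apply SemidirectProduct.ext
    · rfl
    · exact hk
  have hs2 : Function.Surjective f2 := by
    intro w
    obtain ⟨k, hk⟩ := QuotientGroup.mk'_surjective (residual H K) w.right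
    refine ⟨⟨fun x => w.left x * c k x, k⟩, ?_⟩
    apply SemidirectProduct.ext
    · funext x
      exact mul_inv_cancel_right _ _
    · exact hk
  have hW : H (Wr S Y) := hall Y hY
  have h1 : residual H X ≤ f1.ker := (residual_le_ker hH f1 hs1).2 hW
  have h2 : residual H X ≤ f2.ker := (residual_le_ker hH f2 hs2).2 hW
  have hrs : Function.Surjective (SemidirectProduct.rightHom : X →* K) :=
    SemidirectProduct.rightHom_surjective
  have hmap := map_residual hH (SemidirectProduct.rightHom : X →* K) hrs
  have key : ∀ n : residual H K, χ n = 1 := by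
    intro n
    have hn : (n : K) ∈ (residual H X).map (SemidirectProduct.rightHom : X →* K) := by
      rw [hmap]
      exact n.2
    obtain ⟨z, hz, hzn⟩ := hn
    have e1 := MonoidHom.mem_ker.1 (h1 hz)
    have e2 := MonoidHom.mem_ker.1 (h2 hz)
    have hzr : z.right = n := hzn
    have e3 : z.left 1 = 1 := congrFun (congrArg SemidirectProduct.left e1) 1
    have e4 : z.left 1 * (c z.right 1)⁻¹ = 1 := congrFun (congrArg SemidirectProduct.left e2) 1
    rw [e3, one_mul, inv_eq_one, hzr] at e4
    have h5 : coindK (residual H K) (n : K) (1 : Y) =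
        ⟨_, comm_mem (Quotient.out (1 : Y)) n⟩ * n := by
      apply Subtype.ext
      show Quotient.out (1 : Y) * (n : K) * (Quotient.out ((1 : Y) * ((n : K) : Y)))⁻¹ =
        Quotient.out (1 : Y) * (n : K) * (Quotient.out (1 : Y))⁻¹ * (n : K)⁻¹ * (n : K)
      have h6 : (((n : K) : Y)) = 1 := (QuotientGroup.eq_one_iff _).2 n.2
      rw [h6, mul_one, inv_mul_cancel_right]
    have h7 : c (n : K) 1 = χ n := by
      show χ (coindK (residual H K) (n : K) (1 : Y)) = χ n
      rw [h5, map_mul, hcen, one_mul]
    rw [← h7]
    exact e4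
  obtain ⟨s, hs⟩ := exists_ne (1 : S)
  obtain ⟨n, hn⟩ := hχ s
  exact hs (hn ▸ key n)

/-- Every finite simple group is a quotient of non-central type. -/
theorem nc_of_nonabs {H : GroupClass} (hH : IsFormation H)
    (hne : ∃ (Y : Type) (_ : Group Y), H Y ∧ Nontrivial Y) (hna : NonAbs H) (S : Type) [Group S]
    [Finite S] (hS : IsSimpleGroup S) : NC H S := by
  classical
  by_cases hcc : ∃ a b : S, a * b * a⁻¹ * b⁻¹ ≠ 1
  · obtain ⟨a, b, hab⟩ := hcc
    obtain ⟨K, iK, iF, χ, hχ⟩ := hna S hS
    obtain ⟨ya, hya⟩ := hχ a
    obtain ⟨yb, hyb⟩ := hχ b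
    refine ⟨K, iK, iF, χ, hχ, (ya : K), yb, comm_mem _ _, ?_⟩
    have : (⟨_, comm_mem (ya : K) yb⟩ : residual H K) = ya * yb * ya⁻¹ * yb⁻¹ := Subtype.ext rfl
    rw [this, map_mul, map_mul, map_mul, map_inv, map_inv, hya, hyb]
    exact hab
  · have hcomm : ∀ a b : S, a * b = b * a := by
      intro a b
      by_contra h
      exact hcc ⟨a, b, fun h' => h (by
        have h2 := mul_inv_eq_one.1 h'
        rw [mul_inv_eq_iff_eq_mul] at h2
        exact h2)⟩
    haveI : Nontrivial S := hS.toNontrivial
    by_contra hN
    letI iS : CommGroup S := { (inferInstance : Group S) with mul_comm := hcomm }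
    haveI : IsSimpleGroup S := hS
    have hp : (Nat.card S).Prime := IsSimpleGroup.prime_card
    -- some wreath product is not in `H`
    have hex : ∃ (Y₀ : Type) (_ : Group Y₀), H Y₀ ∧ ¬ H (Wr S Y₀) := by
      by_contra hcon
      obtain ⟨K, iK, iF, χ, hχ⟩ := hna S hS
      refine bbh hH hcomm ?_ χ hχ ?_
      · intro Y _ hY
        by_contra hh
        exact hcon ⟨Y, _, hY, hh⟩
      · intro k y
        by_contra hh
        exact hN ⟨K, iK, iF, χ, hχ, k, y, comm_mem k y, hh⟩
    obtain ⟨Y₀, iY₀, hY₀, hWY₀⟩ := hex
    haveI : Finite Y₀ := hH.finite Y₀ hY₀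
    have hv0 : ∃ v ∈ residual H (Wr S Y₀), v ≠ 1 := by
      by_contra hcon
      push Not at hcon
      apply hWY₀
      rw [← residual_eq_bot hH]
      exact (Subgroup.eq_bot_iff_forall _).2 hcon
    obtain ⟨v₀, hv₀, hv₀'⟩ := hv0
    by_cases hdiv : ∃ (Y' : Type) (_ : Group Y'), H Y' ∧ Nat.card S ∣ Nat.card Y'
    · obtain ⟨Y', iY', hY', hd⟩ := hdiv
      haveI : Finite Y' := hH.finite Y' hY'
      haveI : Fintype Y' := Fintype.ofFinite Y'
      have hYY : H (Y₀ × Y') := times_mem hH hY₀ hY'
      let θ : Wr S (Y₀ × Y') →* Wr S Y₀ :=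
        { toFun := fun z => ⟨fun x => ∏ y' : Y', z.left (x, y'), z.right.1⟩
          map_one' := by
            apply SemidirectProduct.ext
            · funext x
              show ∏ y' : Y', (1 : S) = 1
              exact Finset.prod_const_one
            · rfl
          map_mul' := fun z w => by
            apply SemidirectProduct.ext
            · funext x
              show ∏ y' : Y', (z.left (x, y') * w.left ((x, y') * z.right)) =
                (∏ y' : Y', z.left (x, y')) * ∏ y' : Y', w.left (x * z.right.1, y')
              rw [Finset.prod_mul_distrib]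
              congr 1
              exact Fintype.prod_equiv (Equiv.mulRight z.right.2) _ _ (fun y' => rfl)
            · rfl }
      have hθ : Function.Surjective θ := by
        intro w
        refine ⟨⟨fun p => if p.2 = 1 then w.left p.1 else 1, (w.right, 1)⟩, ?_⟩
        apply SemidirectProduct.ext
        · funext x
          show ∏ y' : Y', (if y' = 1 then w.left x else 1) = w.left x
          rw [Finset.prod_ite_eq' Finset.univ (1 : Y') (fun _ => w.left x)]
          simp
        · rfl
      have hm := map_residual hH θ hθ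
      rw [← hm] at hv₀
      obtain ⟨v, hv, rfl⟩ := hv₀
      obtain ⟨hr, hconst⟩ := const_of_not_nc hH hS hcomm hN hYY v hv
      apply hv₀'
      apply SemidirectProduct.ext
      · funext x
        show ∏ y' : Y', v.left (x, y') = 1
        rw [Finset.prod_congr rfl (fun y' _ => hconst (x, y')), Finset.prod_const,
          Finset.card_univ, ← Nat.card_eq_fintype_card]
        obtain ⟨m, hm'⟩ := hd
        rw [hm', pow_mul, pow_card_eq_one', one_pow]
      · show v.right.1 = 1
        rw [hr]
        rfl
    · obtain ⟨Y', iY', hY', hnt⟩ := hne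
      haveI : Finite Y' := hH.finite Y' hY'
      have hnd : ¬ Nat.card S ∣ Nat.card (Wr S Y' ⧸ residual H (Wr S Y')) := fun h =>
        hdiv ⟨_, inferInstance, quot_residual hH _, h⟩
      obtain ⟨s, hs⟩ := exists_ne (1 : S)
      obtain ⟨y1, hy1⟩ := exists_ne (1 : Y')
      let e : Wr S Y' := SemidirectProduct.inl (Pi.mulSingle (1 : Y') s)
      have he : e ^ Nat.card S = 1 := by
        show (SemidirectProduct.inl (Pi.mulSingle (1 : Y') s) : Wr S Y') ^ Nat.card S = 1
        rw [← map_pow, ← Pi.mulSingle_pow, pow_card_eq_one', Pi.mulSingle_one, map_one]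
      have hmem : e ∈ residual H (Wr S Y') := by
        rw [← QuotientGroup.eq_one_iff]
        have h1 : (e : Wr S Y' ⧸ residual H (Wr S Y')) ^ Nat.card S = 1 := by
          rw [← QuotientGroup.mk_pow, he, QuotientGroup.mk_one]
        have h2 : (e : Wr S Y' ⧸ residual H (Wr S Y')) ^
            Nat.card (Wr S Y' ⧸ residual H (Wr S Y')) = 1 := pow_card_eq_one'
        have hcop : Nat.Coprime (Nat.card S) (Nat.card (Wr S Y' ⧸ residual H (Wr S Y'))) :=
          (Nat.Prime.coprime_iff_not_dvd hp).2 hnd
        have h3 := Nat.dvd_gcd (orderOf_dvd_of_pow_eq_one h1) (orderOf_dvd_of_pow_eq_one h2)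
        rw [Nat.Coprime.gcd_eq_one hcop] at h3
        exact orderOf_eq_one_iff.1 (Nat.dvd_one.1 h3)
      obtain ⟨-, hconst⟩ := const_of_not_nc hH hS hcomm hN hY' e hmem
      have h4 := hconst y1
      have h5 : e.left y1 = 1 := by
        show (Pi.mulSingle (1 : Y') s : Y' → S) y1 = 1
        exact Pi.mulSingle_eq_of_ne hy1 _
      have h6 : e.left 1 = s := by
        show (Pi.mulSingle (1 : Y') s : Y' → S) 1 = s
        exact Pi.mulSingle_eq_same _ _
      rw [h5, h6] at h4
      exact hs h4.symm

end Pool.Agent.H347.RC
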