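import Mathlib
import Pool.Agent.Helper75.UF.P_prod_formation
import Pool.Agent.Helper75.UF.P_prod_assoc
import Pool.Agent.Helper75.UF.P_triv_prod
import Pool.Agent.Helper75.UF.P_triv_formation
import Pool.Agent.Helper75.UF.P_residual_prod
import Pool.Agent.Helper75.UF.P_nonabs_of_indecomposable
import Pool.Agent.H347.RC.NC2

set_option autoImplicit false
set_option linter.style.haveILetI false

/-! Lifting epimorphisms of residuals, for arbitrary formations. -/

namespace Pool.Agent.H347.RC

open Pool.Agent.Helper75.UF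

/-- Lifting along an epimorphism with minimal normal kernel. -/
theorem lift_min {H : GroupClass} (hH : IsFormation H)
    (hne : ∃ (Y : Type) (_ : Group Y), H Y ∧ Nontrivial Y)
    (hna : NonAbs H) {G P P' : Type} [Group G] [Finite G] [Group P] [Group P'] [Finite P']
    (χ : residual H G →* P) (hχ : Function.Surjective χ) (f : P' →* P)
    (hf : Function.Surjective f)
    (hmin : ∀ L : Subgroup P', L.Normal → L ≤ f.ker → L = ⊥ ∨ L = f.ker) :
    ∃ (G' : Type) (_ : Group G') (_ : Finite G') (g : G' →* G) (_ : Function.Surjective g)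
      (χ' : residual H G' →* P'), Function.Surjective χ' ∧
        ∀ x : residual H G', ∃ h : g x ∈ residual H G, f (χ' x) = χ ⟨g x, h⟩ := by
  classical
  obtain ⟨G1, iG, iF, q, ψ, hq, hψ, hker, -, -⟩ := coind (residual H G) χ f hf
  have hmr := map_residual hH q hq
  have hle : residual H G1 ≤ (residual H G).comap q := by
    rw [← Subgroup.map_le_iff_le_comap, hmr]
  have hψs : Function.Surjective ψ := by
    intro e
    obtain ⟨u, hu⟩ := hχ (f e)
    obtain ⟨x, hx⟩ := hq u
    have hxm : x ∈ (residual H G).comap q := by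
      rw [Subgroup.mem_comap, hx]
      exact u.2
    have h1 : f ((ψ ⟨x, hxm⟩)⁻¹ * e) = 1 := by
      have h2 : f (ψ ⟨x, hxm⟩) = f e := by
        rw [hψ ⟨x, hxm⟩, ← hu]
        congr 1
        exact Subtype.ext hx
      rw [map_mul, map_inv, h2]
      exact inv_mul_cancel _
    obtain ⟨x', -, hx'⟩ := hker _ h1
    exact ⟨⟨x, hxm⟩ * x', by rw [map_mul, hx', mul_inv_cancel_left]⟩
  let ρ : residual H G1 →* P' := ψ.comp (Subgroup.inclusion hle)
  have hρ : ∀ x : residual H G1, f (ρ x) = χ ⟨q x, hle x.2⟩ := fun x =>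
    hψ (Subgroup.inclusion hle x)
  have hfP0 : ∀ c : P, ∃ x : residual H G1, f (ρ x) = c := by
    intro c
    obtain ⟨u, hu⟩ := hχ c
    have hu2 : (u : G) ∈ (residual H G1).map q := by
      rw [hmr]
      exact u.2
    obtain ⟨x, hx, hxu⟩ := hu2
    refine ⟨⟨x, hx⟩, ?_⟩
    rw [hρ, ← hu]
    congr 1
    exact Subtype.ext hxu
  have hP0n : ρ.range.Normal := by
    refine ⟨?_⟩
    rintro _ ⟨x, rfl⟩ e
    obtain ⟨y, rfl⟩ := hψs e
    refine ⟨⟨(y : G1) * x * (y : G1)⁻¹, (residual_normal H G1).conj_mem _ x.2 _⟩, ?_⟩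
    show ψ (Subgroup.inclusion hle _) = ψ y * ψ (Subgroup.inclusion hle x) * (ψ y)⁻¹
    rw [← map_mul, ← map_inv, ← map_mul]
    rfl
  have hdec : ∀ e : P', ∃ x : residual H G1, (ρ x)⁻¹ * e ∈ f.ker := by
    intro e
    obtain ⟨x, hx⟩ := hfP0 (f e)
    exact ⟨x, by rw [MonoidHom.mem_ker, map_mul, map_inv, hx, inv_mul_cancel]⟩
  by_cases hk : f.ker ≤ ρ.range
  · refine ⟨G1, iG, iF, q, hq, ρ, ?_, fun x => ⟨hle x.2, hρ x⟩⟩
    intro e
    obtain ⟨x, hx⟩ := hdec e
    obtain ⟨x', hx'⟩ := hk hx
    exact ⟨x * x', by rw [map_mul, hx', mul_inv_cancel_left]⟩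
  · have hbot : ρ.range ⊓ f.ker = ⊥ := by
      rcases hmin (ρ.range ⊓ f.ker) inferInstance inf_le_right with h | h
      · exact h
      · exact absurd (inf_eq_right.1 h) hk
    have hkne : f.ker ≠ ⊥ := fun h => hk (by rw [h]; exact bot_le)
    have hcomm : ∀ a ∈ ρ.range, ∀ b ∈ f.ker, Commute a b := fun a ha b hb =>
      Subgroup.commute_of_normal_of_disjoint _ _ hP0n inferInstance (disjoint_iff.2 hbot) a b
        ha hb
    have hsimple : IsSimpleGroup f.ker := by
      haveI hnt : Nontrivial f.ker := (Subgroup.nontrivial_iff_ne_bot _).2 hkne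
      refine { toNontrivial := hnt, eq_bot_or_eq_top_of_normal := fun L hL => ?_ }
      have hLn : (L.map f.ker.subtype).Normal := by
        refine ⟨?_⟩
        rintro _ ⟨l, hl, rfl⟩ e
        obtain ⟨x, hx⟩ := hdec e
        let r : f.ker := ⟨(ρ x)⁻¹ * e, hx⟩
        have he : e = ρ x * (r : P') := (mul_inv_cancel_left (ρ x) e).symm
        refine ⟨r * l * r⁻¹, hL.conj_mem l hl r, ?_⟩
        have hc : Commute (ρ x) ((r * l * r⁻¹ : f.ker) : P') :=
          hcomm _ ⟨x, rfl⟩ _ (r * l * r⁻¹ : f.ker).2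
        have hc2 : ρ x * ((r * l * r⁻¹ : f.ker) : P') * (ρ x)⁻¹ =
            ((r * l * r⁻¹ : f.ker) : P') := by
          rw [hc.eq, mul_inv_cancel_right]
        show ((r * l * r⁻¹ : f.ker) : P') = e * (l : P') * e⁻¹
        rw [← hc2, he]
        push_cast
        group
      rcases hmin _ hLn (by rintro _ ⟨l, _, rfl⟩; exact l.2) with h | h
      · left
        exact (Subgroup.map_eq_bot_iff_of_injective _ (Subgroup.subtype_injective _)).1 h
      · right
        apply Subgroup.map_injective (Subgroup.subtype_injective f.ker)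
        rw [h, ← MonoidHom.range_eq_map, Subgroup.range_subtype]
    obtain ⟨K, iK, iKF, χ1, hχ1, k0, y0, hm0, hne0⟩ := nc_of_nonabs hH hne hna f.ker hsimple
    let fP : ρ.range →* P := f.comp ρ.range.subtype
    have hbij : Function.Bijective fP := by
      constructor
      · rw [injective_iff_map_eq_one]
        intro a ha
        have h1 : (a : P') ∈ ρ.range ⊓ f.ker := ⟨a.2, MonoidHom.mem_ker.2 ha⟩
        rw [hbot, Subgroup.mem_bot] at h1
        exact Subtype.ext h1
      · intro c
        obtain ⟨x, hx⟩ := hfP0 c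
        exact ⟨⟨ρ x, x, rfl⟩, hx⟩
    let σ : ρ.range ≃* P := MulEquiv.ofBijective fP hbij
    let s : P →* P' := ρ.range.subtype.comp σ.symm.toMonoidHom
    have hs1 : ∀ c, f (s c) = c := fun c => σ.apply_symm_apply c
    have hs2 : ∀ c, s c ∈ ρ.range := fun c => (σ.symm c).2
    have hs3 : ∀ a ∈ ρ.range, s (f a) = a := fun a ha =>
      congrArg Subtype.val (σ.symm_apply_apply ⟨a, ha⟩)
    have hfst := map_residual hH (MonoidHom.fst G K) (fun g => ⟨(g, 1), rfl⟩)
    have hsnd := map_residual hH (MonoidHom.snd G K) (fun k => ⟨(1, k), rfl⟩)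
    have hm1 : ∀ x : residual H (G × K), x.1.1 ∈ residual H G := fun x => by
      rw [← hfst]
      exact ⟨x.1, x.2, rfl⟩
    have hm2 : ∀ x : residual H (G × K), x.1.2 ∈ residual H K := fun x => by
      rw [← hsnd]
      exact ⟨x.1, x.2, rfl⟩
    let κ : residual H (G × K) →* residual H G × residual H K :=
      { toFun := fun x => (⟨x.1.1, hm1 x⟩, ⟨x.1.2, hm2 x⟩)
        map_one' := rfl
        map_mul' := fun _ _ => rfl }
    let τ : residual H G × residual H K →* P' :=
      MonoidHom.noncommCoprod (s.comp χ) (f.ker.subtype.comp χ1)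
        (fun m n => hcomm _ (hs2 _) _ (χ1 n).2)
    -- the part of the residual inside `1 × K`
    let R2 : Subgroup (residual H K) :=
      { carrier := {y | ((1 : G), (y : K)) ∈ residual H (G × K)}
        mul_mem' := fun {a b} ha hb => by
          have := (residual H (G × K)).mul_mem ha hb
          simpa using this
        one_mem' := (residual H (G × K)).one_mem
        inv_mem' := fun {a} ha => by
          have := (residual H (G × K)).inv_mem ha
          simpa using this }
    have hR2n : R2.Normal := ⟨fun n hn g => by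
      have h1 := (residual_normal H (G × K)).conj_mem _ hn ((1 : G), (g : K))
      have h2 : ((1 : G), (g : K)) * ((1 : G), (n : K)) * ((1 : G), (g : K))⁻¹ =
          ((1 : G), ((g * n * g⁻¹ : residual H K) : K)) := by
        ext
        · simp
        · simp
      rw [h2] at h1
      exact h1⟩
    have hR2top : R2.map χ1 = ⊤ := by
      have hn : (R2.map χ1).Normal := hR2n.map χ1 hχ1
      rcases hsimple.eq_bot_or_eq_top_of_normal _ hn with h | h
      · exfalso
        apply hne0
        have h3 : (y0 : K) ∈ (residual H (G × K)).map (MonoidHom.snd G K) := by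
          rw [hsnd]
          exact y0.2
        obtain ⟨z, hz, hzy⟩ := h3
        have hz2 : z.2 = (y0 : K) := hzy
        have h4 : ((1 : G), k0) * z * ((1 : G), k0)⁻¹ * z⁻¹ ∈ residual H (G × K) :=
          (residual H (G × K)).mul_mem ((residual_normal H (G × K)).conj_mem _ hz _)
            ((residual H (G × K)).inv_mem hz)
        have h5 : ((1 : G), k0) * z * ((1 : G), k0)⁻¹ * z⁻¹ =
            ((1 : G), k0 * (y0 : K) * k0⁻¹ * (y0 : K)⁻¹) := by
          rw [← hz2]
          ext
          · simp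
          · simp
        rw [h5] at h4
        have h6 : (⟨_, hm0⟩ : residual H K) ∈ R2 := h4
        have h7 : χ1 ⟨_, hm0⟩ ∈ R2.map χ1 := ⟨_, h6, rfl⟩
        rw [h, Subgroup.mem_bot] at h7
        exact h7
      · exact h
    refine ⟨G × K, inferInstance, inferInstance, MonoidHom.fst G K, fun g => ⟨(g, 1), rfl⟩,
      τ.comp κ, ?_, ?_⟩
    · intro e
      obtain ⟨x, hx⟩ := hdec e
      obtain ⟨u, hu⟩ := hχ (f (ρ x))
      have hu2 : (u : G) ∈ (residual H (G × K)).map (MonoidHom.fst G K) := by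
        rw [hfst]
        exact u.2
      obtain ⟨z, hz, hzu⟩ := hu2
      have hz1 : z.1 = (u : G) := hzu
      have hy2 : z.2 ∈ residual H K := hm2 ⟨z, hz⟩
      have ht : (χ1 ⟨z.2, hy2⟩)⁻¹ * ⟨(ρ x)⁻¹ * e, hx⟩ ∈ R2.map χ1 := by
        rw [hR2top]
        exact Subgroup.mem_top _
      obtain ⟨y1, hy1, hy1'⟩ := ht
      have hmem : z * ((1 : G), (y1 : K)) ∈ residual H (G × K) :=
        (residual H (G × K)).mul_mem hz hy1
      refine ⟨⟨_, hmem⟩, ?_⟩
      have e1 : κ ⟨_, hmem⟩ = (u, ⟨z.2, hy2⟩ * y1) := by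
        apply Prod.ext
        · apply Subtype.ext
          show z.1 * 1 = (u : G)
          rw [mul_one, hz1]
        · apply Subtype.ext
          rfl
      show τ (κ ⟨_, hmem⟩) = e
      rw [e1]
      show s (χ u) * ((χ1 (⟨z.2, hy2⟩ * y1) : f.ker) : P') = e
      rw [hu, hs3 _ ⟨x, rfl⟩, map_mul, hy1', mul_inv_cancel_left]
      exact mul_inv_cancel_left _ _
    · intro x
      refine ⟨hm1 x, ?_⟩
      show f (s (χ ⟨x.1.1, hm1 x⟩) * ((χ1 ⟨x.1.2, hm2 x⟩ : f.ker) : P')) = _
      rw [map_mul, hs1, MonoidHom.mem_ker.1 (χ1 ⟨x.1.2, hm2 x⟩).2, mul_one]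
      rfl

/-- Lifting along arbitrary epimorphisms. -/
theorem lift_res {H : GroupClass} (hH : IsFormation H)
    (hne : ∃ (Y : Type) (_ : Group Y), H Y ∧ Nontrivial Y)
    (hna : NonAbs H) {G P P' : Type} [Group G] [Finite G] [Group P] [Group P'] [Finite P']
    (χ : residual H G →* P) (hχ : Function.Surjective χ) (f : P' →* P)
    (hf : Function.Surjective f) :
    ∃ (G' : Type) (_ : Group G') (_ : Finite G') (g : G' →* G) (_ : Function.Surjective g)
      (χ' : residual H G' →* P'), Function.Surjective χ' ∧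
        ∀ x : residual H G', ∃ h : g x ∈ residual H G, f (χ' x) = χ ⟨g x, h⟩ := by
  obtain ⟨n, hn⟩ : ∃ n : ℕ, Nat.card P' = n := ⟨_, rfl⟩
  induction n using Nat.strong_induction_on generalizing P' with
  | _ n ih =>
    by_cases hker : f.ker = ⊥
    · have hinj : Function.Injective f := (MonoidHom.ker_eq_bot_iff f).1 hker
      let e : P' ≃* P := MulEquiv.ofBijective f ⟨hinj, hf⟩
      refine ⟨G, inferInstance, inferInstance, MonoidHom.id G, Function.surjective_id,
        e.symm.toMonoidHom.comp χ, ?_, ?_⟩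
      · intro y
        obtain ⟨x, hx⟩ := hχ (f y)
        refine ⟨x, ?_⟩
        show e.symm (χ x) = y
        rw [hx]
        exact e.symm_apply_apply y
      · intro x
        refine ⟨x.2, ?_⟩
        show e (e.symm (χ x)) = χ x
        exact e.apply_symm_apply _
    · obtain ⟨R, hRmin⟩ := (Set.toFinite {L : Subgroup P' | L.Normal ∧ L ≠ ⊥ ∧ L ≤ f.ker}).exists_minimal
        ⟨f.ker, inferInstance, hker, le_rfl⟩
      obtain ⟨hRn, hRb, hRk⟩ := hRmin.prop
      have hcard : Nat.card (P' ⧸ R) < n := by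
        rw [← hn, Subgroup.card_eq_card_quotient_mul_card_subgroup R]
        have h1 : 1 < Nat.card R := by
          rw [Subgroup.one_lt_card_iff_ne_bot]
          exact hRb
        have h2 : 0 < Nat.card (P' ⧸ R) := Nat.card_pos
        exact lt_mul_of_one_lt_right h2 h1
      have hf1 : Function.Surjective (QuotientGroup.lift R f hRk) := by
        intro y
        obtain ⟨x, hx⟩ := hf y
        exact ⟨(x : P' ⧸ R), hx⟩
      obtain ⟨G1, i1, i2, g1, hg1, χ1, hχ1, H1⟩ :=
        ih _ hcard (QuotientGroup.lift R f hRk) hf1 rfl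
      obtain ⟨G2, j1, j2, g2, hg2, χ2, hχ2, H2⟩ := lift_min hH hne hna χ1 hχ1
        (QuotientGroup.mk' R) (QuotientGroup.mk'_surjective R) (by
          intro L hL hLR
          rw [QuotientGroup.ker_mk'] at hLR ⊢
          by_cases hb : L = ⊥
          · exact Or.inl hb
          · exact Or.inr (le_antisymm hLR (hRmin.le_of_le ⟨hL, hb, hLR.trans hRk⟩ hLR)))
      refine ⟨G2, j1, j2, g1.comp g2, hg1.comp hg2, χ2, hχ2, ?_⟩
      intro x
      obtain ⟨h2, e2⟩ := H2 x
      obtain ⟨h1, e1⟩ := H1 ⟨g2 x, h2⟩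
      refine ⟨h1, ?_⟩
      rw [← e2] at e1
      exact e1

/-- every finite group is a quotient of an `H`-residual -/
theorem exists_res {H : GroupClass} (hH : IsFormation H)
    (hne : ∃ (Y : Type) (_ : Group Y), H Y ∧ Nontrivial Y)
    (hna : NonAbs H) (P : Type) [Group P] [Finite P] :
    ∃ (G : Type) (_ : Group G) (_ : Finite G) (χ : residual H G →* P),
      Function.Surjective χ := by
  obtain ⟨G', i1, i2, g, hg, χ', hχ', -⟩ := lift_res (P := PUnit) (G := PUnit) (P' := P) hH hne hna
    (1 : residual H PUnit →* PUnit) (fun x => ⟨1, Subsingleton.elim _ _⟩) (1 : P →* PUnit)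
    (fun x => ⟨1, Subsingleton.elim _ _⟩)
  exact ⟨G', i1, i2, χ', hχ'⟩

end Pool.Agent.H347.RC
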