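import Mathlib
import Pool.Agent.Helper75.UF.P_main
import Pool.Agent.H347.RC.Lift

set_option autoImplicit false
set_option linter.style.haveILetI false

/-! Right cancellation for products of arbitrary formations. -/

namespace Pool.Agent.H347.RC

open Pool.Agent.Helper75.UF

theorem nontrivial_mem {H : GroupClass} (hH : IsFormation H) (hne : H ≠ Triv) :
    ∃ (Y : Type) (_ : Group Y), H Y ∧ Nontrivial Y := by
  by_contra hcon
  apply hne
  apply class_ext
  intro G _
  constructor
  · intro hG
    show Subsingleton G
    by_contra hs
    exact hcon ⟨G, _, hG, not_subsingleton_iff_nontrivial.1 hs⟩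
  · intro hG
    exact hH.trivial_mem hG

theorem right_cancel_sub {A B H : GroupClass} (hA : IsFormation A) (hB : IsFormation B)
    (hH : IsFormation H) (hne : ∃ (Y : Type) (_ : Group Y), H Y ∧ Nontrivial Y) (hna : NonAbs H)
    (h : Product A H = Product B H) (R : Type) [Group R] (hR : A R) : B R := by
  haveI : Finite R := hA.finite R hR
  obtain ⟨G, _, _, χ, hχ⟩ := RC.exists_res hH hne hna R
  have hK : residual (Product A H) G =
      (residual A (residual H G)).map (residual H G).subtype := residual_prod hA hH G
  let K : Subgroup G := residual (Product A H) G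
  have hmk : Function.Surjective (QuotientGroup.mk' K) := QuotientGroup.mk'_surjective K
  have e : residual H (G ⧸ K) = (residual H G).map (QuotientGroup.mk' K) :=
    (map_residual hH (QuotientGroup.mk' K) hmk).symm
  let φ : residual H G →* (residual H G).map (QuotientGroup.mk' K) :=
    (QuotientGroup.mk' K).subgroupMap (residual H G)
  have hφ : Function.Surjective φ := MonoidHom.subgroupMap_surjective _ _
  have hker : ∀ x : residual H G, φ x = 1 ↔ x ∈ residual A (residual H G) := by
    intro x
    have h1 : φ x = 1 ↔ (x : G) ∈ K := by
      rw [← QuotientGroup.eq_one_iff]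
      constructor
      · intro hx
        exact congrArg Subtype.val hx
      · intro hx
        exact Subtype.ext hx
    rw [h1]
    show (x : G) ∈ residual (Product A H) G ↔ _
    rw [hK]
    constructor
    · rintro ⟨y, hy, hyx⟩
      have : y = x := Subtype.ext hyx
      rwa [← this]
    · intro hx
      exact ⟨x, hx, rfl⟩
  have h1 : A ((residual H G).map (QuotientGroup.mk' K)) := by
    have h2 : A (residual H G ⧸ residual A (residual H G)) := quot_residual hA _
    refine hA.surj h2 (QuotientGroup.lift _ φ (fun x hx => (hker x).2 hx)) ?_
    intro y
    obtain ⟨x, rfl⟩ := hφ y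
    exact ⟨(x : residual H G ⧸ residual A (residual H G)), rfl⟩
  have h3 : Product A H (G ⧸ K) := by
    refine ⟨inferInstance, ?_⟩
    rw [e]
    exact h1
  have hh : ∀ (Q : Type) [Group Q], Product A H Q → Product B H Q := by
    intro Q _ hQ
    rw [← h]
    exact hQ
  have h3 := hh _ h3
  have h4 : B ((residual H G).map (QuotientGroup.mk' K)) := by
    have h5 := h3.2
    rw [e] at h5
    exact h5
  have h6 : B (residual H G ⧸ φ.ker) :=
    hB.iso _ _ ⟨(QuotientGroup.quotientKerEquivOfSurjective φ hφ).symm⟩ h4
  have h7 : residual A (residual H G) ≤ χ.ker := (residual_le_ker hA χ hχ).2 hR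
  refine hB.surj h6 (QuotientGroup.lift _ χ (fun x hx => ?_)) ?_
  · exact MonoidHom.mem_ker.1 (h7 ((hker x).1 (MonoidHom.mem_ker.1 hx)))
  · intro y
    obtain ⟨x, rfl⟩ := hχ y
    exact ⟨(x : residual H G ⧸ φ.ker), rfl⟩

theorem right_cancel {A B H : GroupClass} (hA : IsFormation A) (hB : IsFormation B)
    (hH : Indecomposable H) (h : Product A H = Product B H) : A = B :=
  class_ext fun G _ =>
    ⟨right_cancel_sub hA hB hH.formation (nontrivial_mem hH.formation hH.ne_one)
      (nonabs_of_indecomposable hH) h G,
    right_cancel_sub hB hA hH.formation (nontrivial_mem hH.formation hH.ne_one)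
      (nonabs_of_indecomposable hH) h.symm G⟩

theorem listProd_append (l : List GroupClass) (F : GroupClass) :
    listProd (l ++ [F]) = Product (listProd l) F := by
  simp [listProd, List.foldl_append]

theorem listProd_formation (l : List GroupClass) (hl : ∀ F ∈ l, Indecomposable F) :
    IsFormation (listProd l) := by
  induction l using List.reverseRecOn with
  | nil => exact triv_formation.1
  | append_singleton l F ih =>
    rw [listProd_append]
    exact prod_formation (ih (fun K hK => hl K (List.mem_append_left _ hK)))
      (hl F (List.mem_append_right _ (List.mem_singleton.2 rfl))).formation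

theorem residual_triv (G : Type) [Group G] : residual Triv G = ⊤ := by
  rw [eq_top_iff]
  refine le_sInf ?_
  rintro N ⟨hN, hs⟩
  have hs' : Subsingleton (G ⧸ N) := hs
  exact (QuotientGroup.subgroup_eq_top_of_subsingleton N hs').ge

theorem prod_triv {A : GroupClass} (hA : IsFormation A) : Product A Triv = A := by
  apply class_ext
  intro G _
  constructor
  · rintro ⟨-, h⟩
    rw [residual_triv] at h
    exact hA.iso _ _ ⟨Subgroup.topEquiv⟩ h
  · intro h
    refine ⟨hA.finite G h, ?_⟩
    rw [residual_triv]
    exact hA.iso _ _ ⟨Subgroup.topEquiv.symm⟩ h

/-- Right cancellation of products of indecomposable formations. -/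
theorem right_cancel_list (l : List GroupClass) (hl : ∀ F ∈ l, Indecomposable F)
    {A B : GroupClass} (hA : IsFormation A) (hB : IsFormation B)
    (h : Product A (listProd l) = Product B (listProd l)) : A = B := by
  induction l using List.reverseRecOn with
  | nil =>
    have h' : Product A Triv = Product B Triv := h
    rwa [prod_triv hA, prod_triv hB] at h'
  | append_singleton l F ih =>
    have hl' : ∀ K ∈ l, Indecomposable K := fun K hK => hl K (List.mem_append_left _ hK)
    have hF : Indecomposable F := hl F (List.mem_append_right _ (List.mem_singleton.2 rfl))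
    have hf := listProd_formation l hl'
    rw [listProd_append, ← prod_assoc hA hf hF.formation, ← prod_assoc hB hf hF.formation] at h
    exact ih hl' (right_cancel (prod_formation hA hf) (prod_formation hB hf) hF h)

theorem listProd_append_list (l m : List GroupClass) (hl : ∀ F ∈ l, Indecomposable F)
    (hm : ∀ F ∈ m, Indecomposable F) :
    listProd (l ++ m) = Product (listProd l) (listProd m) := by
  induction m using List.reverseRecOn with
  | nil =>
    rw [List.append_nil]
    exact (prod_triv (listProd_formation l hl)).symm
  | append_singleton m F ih =>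
    have hm' : ∀ K ∈ m, Indecomposable K := fun K hK => hm K (List.mem_append_left _ hK)
    have hF : Indecomposable F := hm F (List.mem_append_right _ (List.mem_singleton.2 rfl))
    rw [← List.append_assoc, listProd_append, listProd_append, ih hm',
      prod_assoc (listProd_formation l hl) (listProd_formation m hm') hF.formation]

theorem listProd_ne_triv (l : List GroupClass) (hl : ∀ F ∈ l, Indecomposable F) (hne : l ≠ []) :
    listProd l ≠ Triv := by
  induction l using List.reverseRecOn with
  | nil => exact absurd rfl hne
  | append_singleton l F ih =>
    intro h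
    have hF : Indecomposable F := hl F (List.mem_append_right _ (List.mem_singleton.2 rfl))
    obtain ⟨Y, iY, hY, hnt⟩ := nontrivial_mem hF.formation hF.ne_one
    have hfin : Finite Y := hF.formation.finite Y hY
    have hmem : listProd (l ++ [F]) Y := by
      rw [listProd_append]
      refine ⟨hfin, ?_⟩
      rw [(residual_eq_bot hF.formation).2 hY]
      exact (listProd_formation l (fun K hK => hl K (List.mem_append_left _ hK))).trivial_mem
        inferInstance
    rw [h] at hmem
    have hs : Subsingleton Y := hmem
    exact not_subsingleton Y hs

end Pool.Agent.H347.RC
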